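import Pool.Agent.Y386.IR.Stm3

/-!
# The imperfection ratio: the reduction with a threshold
-/

namespace Pool.Agent.Y386.IR

open Pool.Agent.NPC Pool.Agent.H692R2 Finset

section

variable (hISO : S_ISO) (hUBC : S_UBC) (hUB2 : S_UB2) (hLB2 : S_LB2)

include hISO in
theorem imp_lexKF (a b : ℕ) (G : FinGraph) : imp (lexKF a b G).graph = imp (lexK a b G.graph) :=
  hISO _ _ _ _ (SimpleGraph.Iso.comap finProdFinEquiv.symm (lexK a b G.graph))

include hISO hUB2 hLB2 in
theorem imp_lexKF_eq {a b : ℕ} (hb : 0 < b) (h1 : 2 * b < a) (h2 : a < 3 * b) (G : FinGraph) :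
    imp (lexKF a b G).graph = a / (2 * b) * imp G.graph := by
  rw [imp_lexKF hISO]
  exact le_antisymm (hUB2 _ _ _ _ hb h1) (hLB2 _ _ _ _ hb h1 h2)

end

/-- The length of the walks. -/
theorem three_le (k : ℕ) (hk : 2 ≤ k) : 3 ≤ 2 * k - 1 := by omega

/-- The reduction function for the `(2k+1)`-cycle. -/
def rd (k : ℕ) (hk : 2 ≤ k) (E : List (ℕ × ℕ)) : FinGraph :=
  red (2 * k + 1) k (2 * k - 1) (by omega) (three_le k hk) E

section

variable (hUBC : S_UBC) (hHOM : S_HOM) (hYES : S_YES) (hFIB : S_FIB) (hCOL : S_COL)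
  (hTRI : S_TRI) (hALPHA : S_ALPHA)

include hUBC hHOM hYES in
theorem rd_yes {k : ℕ} (hk : 2 ≤ k) {E : List (ℕ × ℕ)} (h : Col (2 * k + 1) E) :
    imp (rd k hk E).graph ≤ (2 * k + 1) / (2 * k) := by
  obtain ⟨φ, h1, h2⟩ := hHOM k E hk h
  obtain ⟨c, hc1, hc2⟩ := hYES (2 * k + 1) k (2 * k - 1) (by omega) (three_le k hk) E φ (by omega)
    h1 h2
  have := hUBC _ (gr (2 * k + 1) k (2 * k - 1) (by omega) (three_le k hk) E) (2 * k + 1) k c
    (by omega) (by omega) hc1 hc2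
  push_cast at this
  exact this

include hFIB hTRI hALPHA in
theorem rd_low {k : ℕ} (hk : 2 ≤ k) {E : List (ℕ × ℕ)} (hE : Loopless E)
    (hN : 0 < (sV (2 * k - 1) E).length) : (2 * k + 1 : ℝ) / (2 * k) ≤ imp (rd k hk E).graph := by
  have hcard : Fintype.card (Fin ((sV (2 * k - 1) E).length * (2 * k + 1))) =
    (sV (2 * k - 1) E).length * (2 * k + 1) := Fintype.card_fin _
  have h := hALPHA _ (gr (2 * k + 1) k (2 * k - 1) (by omega) (three_le k hk) E)
    (k * (sV (2 * k - 1) E).length)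
    (hTRI _ _ _ (by omega) (three_le k hk) E (by omega) (by omega) hE)
    (Nat.mul_pos (by omega) hN) (Fin.pos_iff_nonempty.1 (Nat.mul_pos hN (by omega)))
    (fun I hI => (hFIB _ _ _ _ _ E I (by omega) hI).1)
  rw [hcard] at h
  refine le_trans (le_of_eq ?_) h
  have hN' : (0 : ℝ) < (sV (2 * k - 1) E).length := by exact_mod_cast hN
  have hk' : (0 : ℝ) < k := by exact_mod_cast (by omega : 0 < k)
  push_cast
  field_simp

include hFIB hTRI hALPHA hCOL in
theorem rd_no {k : ℕ} (hk : 2 ≤ k) {E : List (ℕ × ℕ)} (hE : Loopless E)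
    (h : ¬ Col (2 * k + 1) E) : 0 < (sV (2 * k - 1) E).length ∧
    ((2 * k + 1 : ℝ) * (sV (2 * k - 1) E).length) / (2 * (k * (sV (2 * k - 1) E).length - 1)) ≤
      imp (rd k hk E).graph := by
  have hN : 0 < (sV (2 * k - 1) E).length := by
    rcases Nat.eq_zero_or_pos (sV (2 * k - 1) E).length with h0 | h0
    · exfalso
      apply h
      refine ⟨fun _ => 0, fun e he => ?_⟩
      exfalso
      obtain ⟨i, hi, rfl⟩ := List.getElem_of_mem he
      have := mem_sV (L := 2 * k - 1) (E := E) (List.getElem?_eq_getElem hi) (Nat.zero_le _)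
      rw [List.length_eq_zero_iff.1 h0] at this
      simp at this
    · exact h0
  refine ⟨hN, ?_⟩
  have hkN : 2 ≤ k * (sV (2 * k - 1) E).length := by nlinarith
  have hcard : Fintype.card (Fin ((sV (2 * k - 1) E).length * (2 * k + 1))) =
    (sV (2 * k - 1) E).length * (2 * k + 1) := Fintype.card_fin _
  have h' := hALPHA _ (gr (2 * k + 1) k (2 * k - 1) (by omega) (three_le k hk) E)
    (k * (sV (2 * k - 1) E).length - 1)
    (hTRI _ _ _ (by omega) (three_le k hk) E (by omega) (by omega) hE)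
    (by omega) (Fin.pos_iff_nonempty.1 (Nat.mul_pos hN (by omega)))
    (fun I hI => by
      obtain ⟨h1, h2⟩ := hFIB _ _ _ _ _ E I (by omega) hI
      rcases Nat.lt_or_ge #I (k * (sV (2 * k - 1) E).length) with h3 | h3
      · omega
      · exfalso
        obtain ⟨ψ, h4, h5⟩ := h2 (le_antisymm h1 h3)
        exact h (hCOL k E ψ hk h4 h5))
  rw [hcard] at h'
  refine le_trans (le_of_eq ?_) h'
  rw [Nat.cast_sub (by omega)]
  push_cast
  rw [mul_comm ((sV (2 * k - 1) E).length : ℝ) (2 * k + 1)]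

end

section

variable (hISO : S_ISO) (hUBC : S_UBC) (hUB2 : S_UB2) (hLB2 : S_LB2) (hHOM : S_HOM)
  (hYES : S_YES) (hFIB : S_FIB) (hCOL : S_COL) (hTRI : S_TRI) (hALPHA : S_ALPHA)

include hISO hUBC hUB2 hLB2 hHOM hYES hFIB hCOL hTRI hALPHA in
/-- The key equivalence. -/
theorem key {k : ℕ} (hk : 2 ≤ k) {E : List (ℕ × ℕ)} (hE : Loopless E) {θ : ℝ} {b J : ℕ}
    (hb : 0 < b) (hbN : k * (sV (2 * k - 1) E).length ≤ b) (hθ : 1 ≤ θ) (hJ1 : 1 ≤ J) (hJb : J < b)
    (h1 : (2 * b + J : ℝ) ≤ 2 * b * θ) (h2 : 2 * b * θ < 2 * b + J + 1) :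
    Col (2 * k + 1) E ↔
      imp (lexKF (2 * b + J) b (rd k hk E)).graph ≤ θ * ((2 * k + 1) / (2 * k)) := by
  have hb' : (0 : ℝ) < b := by exact_mod_cast hb
  have hk' : (0 : ℝ) < k := by exact_mod_cast (by omega : 0 < k)
  have hr0 : (0 : ℝ) < (2 * k + 1) / (2 * k) := by positivity
  have heq := imp_lexKF_eq hISO hUB2 hLB2 (a := 2 * b + J) hb (by omega) (by omega) (rd k hk E)
  rw [heq]
  push_cast
  constructor
  · intro h
    have h3 := rd_yes hUBC hHOM hYES hk h
    have h4 : (2 * b + J : ℝ) / (2 * b) ≤ θ := by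
      rw [div_le_iff₀ (by positivity)]
      linarith
    have h5 : (0 : ℝ) ≤ (2 * b + J : ℝ) / (2 * b) := by positivity
    calc (2 * b + J : ℝ) / (2 * b) * imp (rd k hk E).graph
        ≤ (2 * b + J : ℝ) / (2 * b) * ((2 * k + 1) / (2 * k)) :=
          mul_le_mul_of_nonneg_left h3 h5
      _ ≤ θ * ((2 * k + 1) / (2 * k)) := mul_le_mul_of_nonneg_right h4 hr0.le
  · intro h
    by_contra hno
    obtain ⟨hN, h3⟩ := rd_no hFIB hCOL hTRI hALPHA hk hE hno
    have hN1 : (1 : ℝ) ≤ ((sV (2 * k - 1) E).length : ℝ) := by exact_mod_cast hN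
    have hbN' : (k : ℝ) * ((sV (2 * k - 1) E).length : ℝ) ≤ b := by exact_mod_cast hbN
    generalize ((sV (2 * k - 1) E).length : ℝ) = N at *
    have hk2 : (2 : ℝ) ≤ k := by exact_mod_cast hk
    have hM : (0 : ℝ) < k * N - 1 := by nlinarith
    have h5 : (0 : ℝ) < (2 * b + J : ℝ) / (2 * b) := by positivity
    have h6 := mul_le_mul_of_nonneg_left h3 h5.le
    have h7 := h6.trans h
    rw [div_mul_div_comm, ← mul_div_assoc, div_le_div_iff₀ (by positivity) (by positivity)] at h7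
    -- (2b+J)(2k+1)N * 2k ≤ θ (2k+1) * (2b * 2(kN-1))
    have h8 : (2 * b + J : ℝ) * N * k ≤ θ * (2 * b * (k * N - 1)) := by
      have h9 : (2 * (2 * k + 1 : ℝ)) * ((2 * b + J : ℝ) * N * k) ≤
          (2 * (2 * k + 1 : ℝ)) * (θ * (2 * b * (k * N - 1))) := by nlinarith
      exact le_of_mul_le_mul_left h9 (by positivity)
    have h10 : (2 * b * θ - 1) * (N * k) < (2 * b + J : ℝ) * (N * k) := by
      apply mul_lt_mul_of_pos_right (by linarith) (by positivity)
    nlinarith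

end

end Pool.Agent.Y386.IR
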