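import Pool.Agent.Y386.IR.Asm
import Pool.Agent.NPC.Dec

/-!
# The imperfection ratio: all thresholds
-/

namespace Pool.Agent.Y386.IR

open Pool.Agent.NPC Pool.Agent.H692R2 Finset

/-- `imp ≤ t` is decided by a polynomial-time function on graphs. -/
def Pt (t : ℝ) : Prop := ∃ D : FinGraph → Bool, NPC.Poly D ∧ ∀ G, imp G.graph ≤ t ↔ D G = true

/-- The denominator. -/
def bE (k c : ℕ) (E : List (ℕ × ℕ)) : ℕ := c * (k * ((sV (2 * k - 1) E).length + 1))

theorem bE_poly (k c : ℕ) : UPoly (bE k c) := by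
  unfold bE
  exact UPoly.mul (UPoly.const c) (UPoly.mul (UPoly.const k)
    (UPoly.add (UPoly.length (sV_poly _)) (UPoly.const 1)))

/-- The excess of the numerator over `2 b`, computed with the decision procedure `D`. -/
def jE (D : FinGraph → Bool) (k c : ℕ) (B : FinGraph) (E : List (ℕ × ℕ)) : ℕ :=
  ((List.range (bE k c E)).filter fun j => decide (1 ≤ j) &&
    D (lexKF (2 * bE k c E + min j (bE k c E)) (bE k c E) B)).length

section

variable (hPOLY : S_POLY2)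

include hPOLY in
theorem jE_poly {D : FinGraph → Bool} (hD : NPC.Poly D) (k c : ℕ) (B : FinGraph) :
    UPoly (jE D k c B) := by
  unfold jE
  refine UPoly.length (NPC.Poly.filter (l := fun E => List.range (bE k c E))
    (p := fun E j => decide (1 ≤ j) &&
      D (lexKF (2 * bE k c E + min j (bE k c E)) (bE k c E) B)) (UPoly.range (bE_poly k c)) ?_)
  have hb : UPoly (fun x : List (ℕ × ℕ) × ℕ => bE k c x.1) :=
    UPoly.comp (bE_poly k c) (NPC.Poly.fst NPC.Poly.id)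
  have hm : UPoly (fun x : List (ℕ × ℕ) × ℕ => min x.2 (bE k c x.1)) :=
    UPoly.of_le (NPC.Poly.min (NPC.Poly.snd NPC.Poly.id) (UPoly.toPoly hb)) hb
      (fun _ => min_le_right _ _)
  have h1 : NPC.Poly (fun x : List (ℕ × ℕ) × ℕ =>
      lexKF (2 * bE k c x.1 + min x.2 (bE k c x.1)) (bE k c x.1) B) :=
    hPOLY _ _ _ _ (UPoly.add (UPoly.mul (UPoly.const 2) hb) hm) (UPoly.toPoly hb)
      (NPC.Poly.const B)
  exact NPC.Poly.and (NPC.Poly.decide_le (NPC.Poly.const 1) (NPC.Poly.snd NPC.Poly.id))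
    (NPC.Poly.comp hD h1)

end

/-- The constants. -/
theorem exists_consts {t : ℝ} (ht : 1 < t) (ht2 : t ≤ 5 / 4) : ∃ k : ℕ, 2 ≤ k ∧ ∃ c : ℕ, 0 < c ∧
    ∃ θ : ℝ, 1 < θ ∧ θ < 3 / 2 ∧ t = θ * ((2 * k + 1) / (2 * k)) ∧ 1 ≤ 2 * c * (θ - 1) := by
  obtain ⟨m, hm⟩ := exists_nat_gt (1 / (t - 1))
  have ht1 : 0 < t - 1 := by linarith
  have hm' : 1 < m * (t - 1) := by rwa [div_lt_iff₀ ht1] at hm
  have hk' : (0 : ℝ) < ((m + 2 : ℕ) : ℝ) := by positivity
  have hθ : 1 < t / ((2 * ((m + 2 : ℕ) : ℝ) + 1) / (2 * ((m + 2 : ℕ) : ℝ))) := by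
    rw [lt_div_iff₀ (by positivity), one_mul, div_lt_iff₀ (by positivity)]
    push_cast
    nlinarith
  obtain ⟨c, hc⟩ := exists_nat_gt
    (1 / (t / ((2 * ((m + 2 : ℕ) : ℝ) + 1) / (2 * ((m + 2 : ℕ) : ℝ))) - 1))
  refine ⟨m + 2, by omega, c, ?_, t / ((2 * ((m + 2 : ℕ) : ℝ) + 1) / (2 * ((m + 2 : ℕ) : ℝ))),
    hθ, ?_, ?_, ?_⟩
  · have h0 : 0 < 1 / (t / ((2 * ((m + 2 : ℕ) : ℝ) + 1) / (2 * ((m + 2 : ℕ) : ℝ))) - 1) :=
      one_div_pos.2 (by linarith)
    exact_mod_cast h0.trans hc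
  · rw [div_lt_iff₀ (by positivity)]
    have : (1 : ℝ) < (2 * ((m + 2 : ℕ) : ℝ) + 1) / (2 * ((m + 2 : ℕ) : ℝ)) := by
      rw [lt_div_iff₀ (by positivity)]
      linarith
    nlinarith
  · rw [div_mul_cancel₀]
    positivity
  · rw [div_lt_iff₀ (by linarith)] at hc
    nlinarith

/-- The edge list of a single edge. -/
theorem col_single {k : ℕ} (hk : 2 ≤ k) : Col (2 * k + 1) [(0, 1)] := by
  refine ⟨fun n => if n = 0 then ⟨0, by omega⟩ else ⟨1, by omega⟩, fun e he => ?_⟩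
  simp only [List.mem_cons, List.not_mem_nil, or_false] at he
  subst he
  simp

theorem loopless_single : Loopless [(0, 1)] := by
  intro e he
  simp only [List.mem_cons, List.not_mem_nil, or_false] at he
  subst he
  simp

theorem sV_single_pos (L : ℕ) : 0 < (sV L [(0, 1)]).length := by
  have h := mem_sV (L := L) (E := [(0, 1)]) (i := 0) (e := (0, 1)) rfl (Nat.zero_le L)
  exact List.length_pos_of_mem h

section

variable (hISO : S_ISO) (hUBC : S_UBC) (hUB2 : S_UB2) (hLB2 : S_LB2) (hHOM : S_HOM)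
  (hYES : S_YES) (hFIB : S_FIB) (hCOL : S_COL) (hTRI : S_TRI) (hALPHA : S_ALPHA)
  (hPOLY : S_POLY2) (hNUM : S_NUM)

include hUBC hHOM hYES hFIB hTRI hALPHA in
theorem imp_single {k : ℕ} (hk : 2 ≤ k) :
    imp (rd k hk [(0, 1)]).graph = (2 * k + 1) / (2 * k) :=
  le_antisymm (rd_yes hUBC hHOM hYES hk (col_single hk))
    (rd_low hFIB hTRI hALPHA hk loopless_single (sV_single_pos _))

include hISO hUBC hUB2 hLB2 hHOM hYES hFIB hCOL hTRI hALPHA hPOLY hNUM in
/-- A decision procedure for `imp ≤ t` with `1 < t ≤ 5/4` gives one for `(2k+1)`-colourability. -/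
theorem col_of_Pt {t : ℝ} (ht : 1 < t) (ht2 : t ≤ 5 / 4) (hP : Pt t) : ∃ k : ℕ, 2 ≤ k ∧
    ∃ F : List (ℕ × ℕ) → Bool, NPC.Poly F ∧ ∀ E, Loopless E →
      (Col (2 * k + 1) E ↔ F E = true) := by
  obtain ⟨D, hD, hDt⟩ := hP
  obtain ⟨k, hk, c, hc, θ, hθ1, hθ2, hθ, hcθ⟩ := exists_consts ht ht2
  have hB := imp_single hUBC hHOM hYES hFIB hTRI hALPHA hk
  refine ⟨k, hk, fun E => D (lexKF (2 * bE k c E + jE D k c (rd k hk [(0, 1)]) E) (bE k c E)
    (rd k hk E)), ?_, ?_⟩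
  · refine NPC.Poly.comp hD (hPOLY _ _ _ _ (UPoly.add (UPoly.mul (UPoly.const 2) (bE_poly k c))
      (jE_poly hPOLY hD k c _)) (UPoly.toPoly (bE_poly k c)) ?_)
    exact red_poly _ _ _ _ _
  · intro E hE
    rw [← hDt]
    have hb0 : 0 < bE k c E := by
      unfold bE
      have : 0 < k * ((sV (2 * k - 1) E).length + 1) := Nat.mul_pos (by omega) (by omega)
      exact Nat.mul_pos hc this
    have hbN : k * (sV (2 * k - 1) E).length ≤ bE k c E := by
      unfold bE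
      have h1 : k * (sV (2 * k - 1) E).length ≤ k * ((sV (2 * k - 1) E).length + 1) :=
        Nat.mul_le_mul_left _ (by omega)
      exact h1.trans (Nat.le_mul_of_pos_left _ hc)
    have hbc : c ≤ bE k c E := by
      unfold bE
      exact Nat.le_mul_of_pos_right _ (Nat.mul_pos (by omega) (by omega))
    have hb0' : (0 : ℝ) < bE k c E := by exact_mod_cast hb0
    have hbc' : (c : ℝ) ≤ bE k c E := by exact_mod_cast hbc
    have hr0 : (0 : ℝ) < (2 * k + 1) / (2 * k) := by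
      have : (0 : ℝ) < k := by exact_mod_cast (by omega : 0 < k)
      positivity
    obtain ⟨h1, h2⟩ := hNUM (2 * bE k c E * (θ - 1)) (bE k c E)
      (fun j => D (lexKF (2 * bE k c E + min j (bE k c E)) (bE k c E) (rd k hk [(0, 1)])))
      (by nlinarith) (by nlinarith) (fun j hj1 hj2 => by
        rw [← hDt, min_eq_left hj2.le,
          imp_lexKF_eq hISO hUB2 hLB2 hb0 (by omega) (by omega), hB, hθ,
          mul_le_mul_iff_left₀ hr0, div_le_iff₀ (by positivity)]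
        push_cast
        constructor
        · intro h
          linarith
        · intro h
          linarith)
    have hJ : (((List.range (bE k c E)).filter fun j => decide (1 ≤ j) &&
        D (lexKF (2 * bE k c E + min j (bE k c E)) (bE k c E) (rd k hk [(0, 1)]))).length) =
        jE D k c (rd k hk [(0, 1)]) E := rfl
    rw [hJ] at h1 h2
    have hX1 : (1 : ℝ) ≤ 2 * bE k c E * (θ - 1) := by nlinarith
    have hX2 : 2 * bE k c E * (θ - 1) < (bE k c E : ℝ) := by nlinarith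
    have hJ1 : 1 ≤ jE D k c (rd k hk [(0, 1)]) E := by
      have : (0 : ℝ) < jE D k c (rd k hk [(0, 1)]) E := by linarith
      exact_mod_cast this
    have hJb : jE D k c (rd k hk [(0, 1)]) E < bE k c E := by
      have : (jE D k c (rd k hk [(0, 1)]) E : ℝ) < bE k c E := by linarith
      exact_mod_cast this
    rw [hθ]
    exact key hISO hUBC hUB2 hLB2 hHOM hYES hFIB hCOL hTRI hALPHA hk hE hb0 hbN hθ1.le hJ1 hJb
      (by linarith) (by linarith)

end

/-- A decision procedure for colourability gives `P = NP`. -/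
theorem peqnp_of_col {k : ℕ} (hk : 3 ≤ k) {F : List (ℕ × ℕ) → Bool} (hF : NPC.Poly F)
    (h : ∀ E, Loopless E → (Col k E ↔ F E = true)) : PEqNP := by
  intro L hL
  obtain ⟨g, hg, hgp, hgL⟩ := hardPr_col k hk L hL
  refine ⟨fun x => [F (g x)], ?_, fun x => ?_⟩
  · have h3 : PC (fun x : List Bool => x) (bits : Bool → List Bool) (fun x => F (g x)) :=
      PC.comp (g := F) (f := g) hF hg
    exact PC.toPolyTime (PC.comp (g := fun b => [b]) (f := fun x => F (g x)) PC.rawBool h3)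
  · rw [hgL x, h _ (hgp x)]
    simp

section

variable (hISO : S_ISO) (hUB2 : S_UB2) (hLB2 : S_LB2) (hPOLY : S_POLY2)

include hISO hUB2 hLB2 hPOLY in
theorem Pt_step {t : ℝ} (h : Pt t) : Pt (4 / 5 * t) := by
  obtain ⟨D, hD, hDt⟩ := h
  refine ⟨fun G => D (lexKF 5 2 G), NPC.Poly.comp hD (hPOLY _ _ _ _ (UPoly.const 5)
    (NPC.Poly.const 2) NPC.Poly.id), fun G => ?_⟩
  rw [← hDt, imp_lexKF_eq hISO hUB2 hLB2 (by norm_num) (by norm_num) (by norm_num)]
  push_cast
  constructor <;> intro h <;> linarith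

end

section

variable (hISO : S_ISO) (hUBC : S_UBC) (hUB2 : S_UB2) (hLB2 : S_LB2) (hHOM : S_HOM)
  (hYES : S_YES) (hFIB : S_FIB) (hCOL : S_COL) (hTRI : S_TRI) (hALPHA : S_ALPHA)
  (hPOLY : S_POLY2) (hNUM : S_NUM) (hTHR : S_THR) (hORAC : S_ORAC)

include hISO hUBC hUB2 hLB2 hHOM hYES hFIB hCOL hTRI hALPHA hPOLY hNUM hTHR hORAC in
/-- For every real `t > 1`: if `imp ≤ t` is decidable in polynomial time, then `P = NP`. -/
theorem main_real {t : ℝ} (ht : 1 < t)
    (h : GraphPolyDecidable (fun G : FinGraph => imp G.graph ≤ t)) : PEqNP := by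
  have hP : Pt t := hORAC _ h
  obtain ⟨t', h1, h2, h3⟩ := hTHR Pt (fun t => Pt_step hISO hUB2 hLB2 hPOLY) t ht hP
  obtain ⟨k, hk, F, hF, hFE⟩ := col_of_Pt hISO hUBC hUB2 hLB2 hHOM hYES hFIB hCOL hTRI hALPHA
    hPOLY hNUM h1 h2 h3
  exact peqnp_of_col (by omega) hF hFE

end

end Pool.Agent.Y386.IR
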