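import Pool.Agent.Y386.IR.Fin

/-!
# The imperfection ratio: rational thresholds
-/

namespace Pool.Agent.Y386.IR

open Pool.Agent.NPC Pool.Agent.H692R2 Finset

theorem cast_le_five_fourths {t : ℚ} : (t : ℝ) ≤ 5 / 4 ↔ t ≤ 5 / 4 := by
  have h : ((5 / 4 : ℚ) : ℝ) = 5 / 4 := by push_cast; rfl
  rw [← h, Rat.cast_le]

section

variable (hISO : S_ISO) (hUBC : S_UBC) (hUB2 : S_UB2) (hLB2 : S_LB2) (hHOM : S_HOM)
  (hYES : S_YES) (hFIB : S_FIB) (hCOL : S_COL) (hTRI : S_TRI) (hALPHA : S_ALPHA)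
  (hPOLY : S_POLY2)

include hISO hUBC hUB2 hLB2 hHOM hYES hFIB hCOL hTRI hALPHA hPOLY in
theorem hard_small {t : ℚ} (ht : 1 < t) (ht2 : t ≤ 5 / 4) :
    HardI (fun G : FinGraph => imp G.graph ≤ (t : ℝ)) := by
  obtain ⟨k, hk, c, hc, θ, hθ1, hθ2, hθ, hcθ⟩ := exists_consts (t := (t : ℝ))
    (by exact_mod_cast ht) (cast_le_five_fourths.2 ht2)
  have hk' : (0 : ℝ) < k := by exact_mod_cast (by omega : 0 < k)
  obtain ⟨u, v, hv, huv⟩ : ∃ u v : ℕ, 0 < v ∧ θ - 1 = u / v := by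
    have h1 : θ - 1 = ((t * (2 * k) / (2 * k + 1) - 1 : ℚ) : ℝ) := by
      push_cast
      rw [hθ]
      field_simp
    have h2 : (0 : ℚ) < t * (2 * k) / (2 * k + 1) - 1 := by
      have : (0 : ℝ) < ((t * (2 * k) / (2 * k + 1) - 1 : ℚ) : ℝ) := by rw [← h1]; linarith
      exact_mod_cast this
    generalize (t * (2 * k) / (2 * k + 1) - 1 : ℚ) = ρ at h1 h2
    refine ⟨ρ.num.toNat, ρ.den, ρ.pos, ?_⟩
    rw [h1]
    have h3 : (0 : ℤ) ≤ ρ.num := (Rat.num_pos.2 h2).le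
    have h4 : ((ρ.num.toNat : ℕ) : ℝ) = (ρ.num : ℝ) := by
      have : ((ρ.num.toNat : ℕ) : ℤ) = ρ.num := Int.toNat_of_nonneg h3
      exact_mod_cast congrArg (fun z : ℤ => (z : ℝ)) this
    rw [h4]
    exact_mod_cast (Rat.num_div_den ρ).symm
  have hJp : UPoly (fun E => 2 * bE k c E * u / v) :=
    UPoly.of_le (n := fun E => 2 * bE k c E * u)
      (NPC.Poly.div (UPoly.toPoly (UPoly.mul (UPoly.mul (UPoly.const 2) (bE_poly k c))
        (UPoly.const u))) (NPC.Poly.const v))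
      (UPoly.mul (UPoly.mul (UPoly.const 2) (bE_poly k c)) (UPoly.const u))
      (fun E => Nat.div_le_self _ _)
  have hpoly : NPC.Poly (fun E => lexKF (2 * bE k c E + 2 * bE k c E * u / v) (bE k c E)
      (rd k hk E)) := by
    refine hPOLY _ _ _ _ (UPoly.add (UPoly.mul (UPoly.const 2) (bE_poly k c)) hJp)
      (UPoly.toPoly (bE_poly k c)) ?_
    exact red_poly _ _ _ _ _
  refine HardPr.toHardI (HardPr.trans (Pr' := fun _ => True) (hardPr_col (2 * k + 1) (by omega))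
    hpoly (fun _ _ => trivial) (fun E hE => ?_))
  have hb0 : 0 < bE k c E := by
    unfold bE
    have : 0 < k * ((sV (2 * k - 1) E).length + 1) := Nat.mul_pos (by omega) (by omega)
    exact Nat.mul_pos hc this
  have hbN : k * (sV (2 * k - 1) E).length ≤ bE k c E := by
    unfold bE
    have h1 : k * (sV (2 * k - 1) E).length ≤ k * ((sV (2 * k - 1) E).length + 1) :=
      Nat.mul_le_mul_left _ (by omega)
    exact h1.trans (Nat.le_mul_of_pos_left _ hc)
  have hbc : c ≤ bE k c E := by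
    unfold bE
    exact Nat.le_mul_of_pos_right _ (Nat.mul_pos (by omega) (by omega))
  have hb0' : (0 : ℝ) < bE k c E := by exact_mod_cast hb0
  have hbc' : (c : ℝ) ≤ bE k c E := by exact_mod_cast hbc
  have hv' : (0 : ℝ) < v := by exact_mod_cast hv
  have h1 : ((2 * bE k c E * u / v : ℕ) : ℝ) ≤ 2 * bE k c E * (θ - 1) := by
    rw [huv, ← mul_div_assoc]
    have := Nat.cast_div_le (m := 2 * bE k c E * u) (n := v) (α := ℝ)
    push_cast at this
    exact this
  have h2 : 2 * bE k c E * (θ - 1) < ((2 * bE k c E * u / v : ℕ) : ℝ) + 1 := by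
    rw [huv, ← mul_div_assoc, div_lt_iff₀ hv']
    have := Nat.lt_mul_div_succ (2 * bE k c E * u) hv
    have h3 : ((2 * bE k c E * u : ℕ) : ℝ) < ((v * (2 * bE k c E * u / v + 1) : ℕ) : ℝ) := by
      exact_mod_cast this
    push_cast at h3 ⊢
    linarith
  have hX1 : (1 : ℝ) ≤ 2 * bE k c E * (θ - 1) := by nlinarith
  have hX2 : 2 * bE k c E * (θ - 1) < (bE k c E : ℝ) := by nlinarith
  have hJ1 : 1 ≤ 2 * bE k c E * u / v := by
    have : (0 : ℝ) < ((2 * bE k c E * u / v : ℕ) : ℝ) := by linarith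
    exact_mod_cast this
  have hJb : 2 * bE k c E * u / v < bE k c E := by
    have : ((2 * bE k c E * u / v : ℕ) : ℝ) < bE k c E := by linarith
    exact_mod_cast this
  rw [hθ]
  exact key hISO hUBC hUB2 hLB2 hHOM hYES hFIB hCOL hTRI hALPHA hk hE hb0 hbN hθ1.le hJ1 hJb
    (by linarith) (by linarith)

include hISO hUB2 hLB2 hPOLY in
theorem hard_step {t : ℝ} (h : HardI (fun G : FinGraph => imp G.graph ≤ 4 / 5 * t)) :
    HardI (fun G : FinGraph => imp G.graph ≤ t) := by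
  refine HardI.trans h (f := fun G => lexKF 5 2 G) (hPOLY _ _ _ _ (UPoly.const 5)
    (NPC.Poly.const 2) NPC.Poly.id) (fun G => ?_)
  rw [imp_lexKF_eq hISO hUB2 hLB2 (by norm_num) (by norm_num) (by norm_num)]
  push_cast
  constructor <;> intro h <;> linarith

include hISO hUBC hUB2 hLB2 hHOM hYES hFIB hCOL hTRI hALPHA hPOLY in
/-- For every rational `t > 1`, deciding `imp ≤ t` is NP-hard. -/
theorem main_rat (hTHR : S_THR) {t : ℚ} (ht : 1 < t) :
    NPHardP (fun G : FinGraph => imp G.graph ≤ (t : ℝ)) := by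
  apply HardI.toNPHardP
  obtain ⟨t', h1, h2, h3, s, rfl⟩ := hTHR
    (fun s => (HardI (fun G : FinGraph => imp G.graph ≤ s) →
      HardI (fun G : FinGraph => imp G.graph ≤ (t : ℝ))) ∧ ∃ r : ℚ, s = (r : ℝ))
    (fun s ⟨h1, r, h2⟩ => ⟨fun h => h1 (hard_step hISO hUB2 hLB2 hPOLY h),
      4 / 5 * r, by rw [h2]; push_cast; ring⟩) (t : ℝ) (by exact_mod_cast ht) ⟨id, t, rfl⟩
  exact h3 (hard_small hISO hUBC hUB2 hLB2 hHOM hYES hFIB hCOL hTRI hALPHA hPOLY
    (by exact_mod_cast h1) (cast_le_five_fourths.1 h2))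

end

end Pool.Agent.Y386.IR
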