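import Pool.Agent.Y386.IR.Stm
import Pool.Agent.H692R2.ImpMain

/-!
# The reduction from colourability to `imp ≤ p / (2 q)`

The edges of the given graph are replaced by paths of length `L`, and the result is multiplied
(Cartesian product) by the circular clique `K_{p/q}`.
-/

namespace Pool.Agent.Y386.IR

open Pool.Agent.NPC Pool.Agent.H692R2

/-- The `j`-th vertex of the path of length `L` which replaces the `i`-th edge `e`. -/
def pv (L : ℕ) (e : ℕ × ℕ) (i j : ℕ) : Lab :=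
  if j = 0 then (0, e.1) else if j = L then (0, e.2) else (j, i)

/-- The edges of the subdivided graph. -/
def sE (L : ℕ) (E : List (ℕ × ℕ)) : List (Lab × Lab) :=
  E.zipIdx.flatMap (fun p => (List.range L).map (fun j => (pv L p.1 p.2 j, pv L p.1 p.2 (j + 1))))

/-- The vertices of the subdivided graph. -/
def sV (L : ℕ) (E : List (ℕ × ℕ)) : List Lab :=
  E.zipIdx.flatMap (fun p => (List.range (L + 1)).map (fun j => pv L p.1 p.2 j))

/-- The vertex of the subdivided graph in whose fibre the number `m` lies. -/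
def sl (p L : ℕ) (E : List (ℕ × ℕ)) (m : ℕ) : Lab := (sV L E).getD (m / p) (0, 0)

/-- Adjacency in the subdivided graph. -/
def sA (L : ℕ) (E : List (ℕ × ℕ)) (a b : Lab) : Prop := (a, b) ∈ sE L E ∨ (b, a) ∈ sE L E

instance (L : ℕ) (E : List (ℕ × ℕ)) (a b : Lab) : Decidable (sA L E a b) :=
  inferInstanceAs (Decidable (_ ∨ _))

theorem mem_sE {L : ℕ} {E : List (ℕ × ℕ)} {a b : Lab} : (a, b) ∈ sE L E ↔
    ∃ i e j, E[i]? = some e ∧ j < L ∧ a = pv L e i j ∧ b = pv L e i (j + 1) := by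
  unfold sE
  simp only [List.mem_flatMap, List.mem_map, List.mem_range, Prod.mk.injEq]
  constructor
  · rintro ⟨⟨e, i⟩, hp, j, hj, rfl, rfl⟩
    rw [List.mem_zipIdx_iff_getElem?] at hp
    exact ⟨i, e, j, hp, hj, rfl, rfl⟩
  · rintro ⟨i, e, j, hp, hj, rfl, rfl⟩
    exact ⟨(e, i), List.mem_zipIdx_iff_getElem?.2 hp, j, hj, rfl, rfl⟩

theorem mem_sV {L : ℕ} {E : List (ℕ × ℕ)} {i : ℕ} {e : ℕ × ℕ} (h : E[i]? = some e) {j : ℕ}
    (hj : j ≤ L) : pv L e i j ∈ sV L E := by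
  unfold sV
  simp only [List.mem_flatMap, List.mem_map, List.mem_range]
  exact ⟨(e, i), List.mem_zipIdx_iff_getElem?.2 h, j, by omega, rfl⟩

theorem sA_symm {L : ℕ} {E : List (ℕ × ℕ)} {a b : Lab} (h : sA L E a b) : sA L E b a := Or.symm h

theorem pv_fst (L : ℕ) (e : ℕ × ℕ) (i j : ℕ) :
    (pv L e i j).1 = if j = 0 then 0 else if j = L then 0 else j := by
  unfold pv
  split_ifs <;> rfl

/-- The first coordinates of adjacent vertices of the subdivided graph. -/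
theorem tag_sE {L : ℕ} (hL : 3 ≤ L) {E : List (ℕ × ℕ)} {a b : Lab} (h : (a, b) ∈ sE L E) :
    ((a.1 = 0 ∧ b.1 = 1) ∨ (a.1 + 1 = b.1 ∧ b.1 < L) ∨ (a.1 + 1 = L ∧ b.1 = 0)) := by
  obtain ⟨i, e, j, _, hj, rfl, rfl⟩ := mem_sE.1 h
  have h1 := pv_fst L e i j
  have h2 := pv_fst L e i (j + 1)
  generalize (pv L e i j).1 = x at *
  generalize (pv L e i (j + 1)).1 = y at *
  rcases Nat.eq_zero_or_pos j with h0 | h0
  · rw [if_pos h0] at h1
    rw [if_neg (by omega), if_neg (by omega)] at h2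
    omega
  · rw [if_neg (by omega), if_neg (by omega)] at h1
    rw [if_neg (by omega)] at h2
    split_ifs at h2 <;> omega

theorem tag_sA {L : ℕ} (hL : 3 ≤ L) {E : List (ℕ × ℕ)} {a b : Lab} (h : sA L E a b) :
    (a.1 + 1 = b.1 ∧ b.1 < L) ∨ (a.1 + 1 = L ∧ b.1 = 0) ∨
    (b.1 + 1 = a.1 ∧ a.1 < L) ∨ (b.1 + 1 = L ∧ a.1 = 0) := by
  rcases h with h | h
  · rcases tag_sE hL h with h | h | h <;> omega
  · rcases tag_sE hL h with h | h | h <;> omega

/-- For `L = 3` this is the graph of the starting result. -/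
theorem sE_three {E : List (ℕ × ℕ)} {a b : Lab} (h : (a, b) ∈ sE 3 E) : (a, b) ∈ subE E := by
  obtain ⟨i, e, j, hi, hj, rfl, rfl⟩ := mem_sE.1 h
  rw [mem_subE]
  refine ⟨i, e, hi, ?_⟩
  have : j = 0 ∨ j = 1 ∨ j = 2 := by omega
  rcases this with rfl | rfl | rfl <;> simp [pv]

theorem sA_triangle {L : ℕ} (hL : 3 ≤ L) (hodd : L % 2 = 1) {E : List (ℕ × ℕ)} (hE : Loopless E)
    {a b c : Lab} (hab : sA L E a b) (hbc : sA L E b c) (hac : sA L E a c) : False := by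
  rcases Nat.lt_or_ge L 4 with h4 | h4
  · obtain rfl : L = 3 := by omega
    exact sub_triangle hE (hab.imp sE_three sE_three) (hbc.imp sE_three sE_three)
      (hac.imp sE_three sE_three)
  · have h1 := tag_sA hL hab
    have h2 := tag_sA hL hbc
    have h3 := tag_sA hL hac
    omega

theorem CA_symm {p q a b : ℕ} (h : CA p q a b) : CA p q b a := Or.symm h

theorem CA_irrefl {p q a : ℕ} (hq : 0 < q) : ¬ CA p q a a := by
  unfold CA
  omega

/-- The adjacency relation of the constructed graph. -/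
def AP (p q L : ℕ) (E : List (ℕ × ℕ)) (m m' : ℕ) : Prop :=
  (sl p L E m = sl p L E m' ∧ CA p q (m % p) (m' % p)) ∨
    (m % p = m' % p ∧ sA L E (sl p L E m) (sl p L E m'))

instance (p q L : ℕ) (E : List (ℕ × ℕ)) (m m' : ℕ) : Decidable (AP p q L E m m') :=
  inferInstanceAs (Decidable (_ ∨ _))

theorem AP_irrefl {p q L : ℕ} (hq : 0 < q) (hL : 3 ≤ L) {E : List (ℕ × ℕ)} {m : ℕ} :
    ¬ AP p q L E m m := by
  rintro (⟨_, h⟩ | ⟨_, h⟩)
  · exact CA_irrefl hq h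
  · have := tag_sA hL h
    omega

/-- The constructed graph. -/
def gr (p q L : ℕ) (hq : 0 < q) (hL : 3 ≤ L) (E : List (ℕ × ℕ)) :
    SimpleGraph (Fin ((sV L E).length * p)) where
  Adj i j := AP p q L E i j
  symm := ⟨by
    rintro i j (⟨h1, h2⟩ | ⟨h1, h2⟩)
    · exact Or.inl ⟨h1.symm, CA_symm h2⟩
    · exact Or.inr ⟨h1.symm, sA_symm h2⟩⟩
  loopless := ⟨fun _ h => AP_irrefl hq hL h⟩

/-- The reduction function. -/
def red (p q L : ℕ) (hq : 0 < q) (hL : 3 ≤ L) (E : List (ℕ × ℕ)) : FinGraph :=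
  ⟨(sV L E).length * p, gr p q L hq hL E⟩

theorem pv_poly {α : Type} [TEnc α] (L : ℕ) {e : α → ℕ × ℕ} {i j : α → ℕ} (he : NPC.Poly e)
    (hi : NPC.Poly i) (hj : NPC.Poly j) : NPC.Poly (fun a => pv L (e a) (i a) (j a)) := by
  unfold pv
  exact NPC.Poly.ite (NPC.Poly.decide_eq hj (NPC.Poly.const 0))
    (NPC.Poly.pair (NPC.Poly.const 0) (NPC.Poly.fst he))
    (NPC.Poly.ite (NPC.Poly.decide_eq hj (NPC.Poly.const L))
      (NPC.Poly.pair (NPC.Poly.const 0) (NPC.Poly.snd he)) (NPC.Poly.pair hj hi))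

theorem sE_poly (L : ℕ) : NPC.Poly (fun E : List (ℕ × ℕ) => sE L E) := by
  unfold sE
  refine NPC.Poly.flatMap (NPC.Poly.zipIdx NPC.Poly.id) ?_
  refine NPC.Poly.map (l := fun _ : List (ℕ × ℕ) × (ℕ × ℕ) × ℕ => List.range L)
    (F := fun p j => (pv L p.2.1 p.2.2 j, pv L p.2.1 p.2.2 (j + 1))) (NPC.Poly.const _) ?_
  have he : NPC.Poly (fun p : (List (ℕ × ℕ) × (ℕ × ℕ) × ℕ) × ℕ => p.1.2.1) :=
    NPC.Poly.fst (NPC.Poly.snd (NPC.Poly.fst NPC.Poly.id))
  have hi : NPC.Poly (fun p : (List (ℕ × ℕ) × (ℕ × ℕ) × ℕ) × ℕ => p.1.2.2) :=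
    NPC.Poly.snd (NPC.Poly.snd (NPC.Poly.fst NPC.Poly.id))
  have hj : NPC.Poly (fun p : (List (ℕ × ℕ) × (ℕ × ℕ) × ℕ) × ℕ => p.2) :=
    NPC.Poly.snd NPC.Poly.id
  exact NPC.Poly.pair (pv_poly L he hi hj) (pv_poly L he hi (NPC.Poly.succ hj))

theorem sV_poly (L : ℕ) : NPC.Poly (fun E : List (ℕ × ℕ) => sV L E) := by
  unfold sV
  refine NPC.Poly.flatMap (NPC.Poly.zipIdx NPC.Poly.id) ?_
  refine NPC.Poly.map (l := fun _ : List (ℕ × ℕ) × (ℕ × ℕ) × ℕ => List.range (L + 1))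
    (F := fun p j => pv L p.2.1 p.2.2 j) (NPC.Poly.const _) ?_
  have he : NPC.Poly (fun p : (List (ℕ × ℕ) × (ℕ × ℕ) × ℕ) × ℕ => p.1.2.1) :=
    NPC.Poly.fst (NPC.Poly.snd (NPC.Poly.fst NPC.Poly.id))
  have hi : NPC.Poly (fun p : (List (ℕ × ℕ) × (ℕ × ℕ) × ℕ) × ℕ => p.1.2.2) :=
    NPC.Poly.snd (NPC.Poly.snd (NPC.Poly.fst NPC.Poly.id))
  have hj : NPC.Poly (fun p : (List (ℕ × ℕ) × (ℕ × ℕ) × ℕ) × ℕ => p.2) :=
    NPC.Poly.snd NPC.Poly.id
  exact pv_poly L he hi hj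

theorem CA_poly {α : Type} [TEnc α] (p q : ℕ) {f g : α → ℕ} (hf : NPC.Poly f) (hg : NPC.Poly g) :
    NPC.Poly (fun a => decide (CA p q (f a) (g a))) := by
  have h : NPC.Poly (fun a => decide ((f a + q ≤ g a ∧ g a + q ≤ f a + p) ∨
      (g a + q ≤ f a ∧ f a + q ≤ g a + p))) := by
    have c : ∀ (k : ℕ) {u : α → ℕ}, NPC.Poly u → NPC.Poly (fun a => u a + k) := fun k u hu =>
      NPC.Poly.add hu (NPC.Poly.const k)
    exact NPC.Poly.decide_or
      (NPC.Poly.decide_and (NPC.Poly.decide_le (c q hf) hg)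
        (NPC.Poly.decide_le (c q hg) (c p hf)))
      (NPC.Poly.decide_and (NPC.Poly.decide_le (c q hg) hf)
        (NPC.Poly.decide_le (c q hf) (c p hg)))
  exact h.congr fun a => by unfold CA; congr

theorem red_poly (p q L : ℕ) (hq : 0 < q) (hL : 3 ≤ L) : NPC.Poly (red p q L hq hL) := by
  refine poly_finGraph (N := fun E => (sV L E).length * p)
    (b := fun E m m' => decide (AP p q L E m m'))
    (G := fun E => gr p q L hq hL E) (UPoly.mul (UPoly.length (sV_poly L)) (UPoly.const p)) ?_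
    (fun E i j => (decide_eq_true_iff (p := AP p q L E i j)).symm)
  have hE' : NPC.Poly (fun x : (List (ℕ × ℕ) × ℕ) × ℕ => sE L x.1.1) :=
    (sE_poly L).comp (NPC.Poly.fst (NPC.Poly.fst NPC.Poly.id))
  have hV' : NPC.Poly (fun x : (List (ℕ × ℕ) × ℕ) × ℕ => sV L x.1.1) :=
    (sV_poly L).comp (NPC.Poly.fst (NPC.Poly.fst NPC.Poly.id))
  have hm : NPC.Poly (fun x : (List (ℕ × ℕ) × ℕ) × ℕ => x.1.2) :=
    NPC.Poly.snd (NPC.Poly.fst NPC.Poly.id)
  have hm' : NPC.Poly (fun x : (List (ℕ × ℕ) × ℕ) × ℕ => x.2) := NPC.Poly.snd NPC.Poly.id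
  have hlab : ∀ {f : (List (ℕ × ℕ) × ℕ) × ℕ → ℕ}, NPC.Poly f →
      NPC.Poly (fun x => sl p L x.1.1 (f x)) := by
    intro f hf
    unfold sl
    exact NPC.Poly.getD hV' (NPC.Poly.div hf (NPC.Poly.const p)) (NPC.Poly.const (0, 0))
  have hmod : ∀ {f : (List (ℕ × ℕ) × ℕ) × ℕ → ℕ}, NPC.Poly f →
      NPC.Poly (fun x => f x % p) := fun hf => NPC.Poly.mod hf (NPC.Poly.const p)
  have h : NPC.Poly (fun x : (List (ℕ × ℕ) × ℕ) × ℕ =>
      decide ((sl p L x.1.1 x.1.2 = sl p L x.1.1 x.2 ∧ CA p q (x.1.2 % p) (x.2 % p)) ∨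
        (x.1.2 % p = x.2 % p ∧ ((sl p L x.1.1 x.1.2, sl p L x.1.1 x.2) ∈ sE L x.1.1 ∨
          (sl p L x.1.1 x.2, sl p L x.1.1 x.1.2) ∈ sE L x.1.1)))) := by
    refine NPC.Poly.decide_or (NPC.Poly.decide_and (NPC.Poly.decide_eq (hlab hm) (hlab hm'))
      (CA_poly p q (hmod hm) (hmod hm'))) (NPC.Poly.decide_and
      (NPC.Poly.decide_eq (hmod hm) (hmod hm')) (NPC.Poly.decide_or
        ((NPC.Poly.decide_mem (NPC.Poly.pair (hlab hm) (hlab hm')) hE').congr fun _ => by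
          congr)
        ((NPC.Poly.decide_mem (NPC.Poly.pair (hlab hm') (hlab hm)) hE').congr fun _ => by
          congr)))
  exact h.congr fun a => by
    apply decide_eq_decide.2
    exact Iff.rfl

end Pool.Agent.Y386.IR
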