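import Pool.Agent.H692R2.Imp2
import Pool.Agent.H692R2.FinGraph

/-!
# The imperfection ratio: statements of the parts

`lex5 G` is the lexicographic product `C5[G]`, whose imperfection ratio is `5/4` times that of
`G`.
-/

namespace Pool.Agent.Y386.IR

open Pool.Agent.H692R2 Finset

/-- Five copies of `G`, cyclically consecutive copies being completely joined (the lexicographic
product of the 5-cycle and `G`). -/
def lex5 {V : Type} (G : SimpleGraph V) : SimpleGraph (Fin 5 × V) where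
  Adj a b := (a.1 = b.1 ∧ G.Adj a.2 b.2) ∨ (b.1 = a.1 + 1 ∨ a.1 = b.1 + 1)
  symm := ⟨by
    rintro a b (⟨h1, h2⟩ | h | h)
    · exact Or.inl ⟨h1.symm, h2.symm⟩
    · exact Or.inr (Or.inr h)
    · exact Or.inr (Or.inl h)⟩
  loopless := ⟨by
    have key : ∀ i : Fin 5, i ≠ i + 1 := by decide
    rintro a (⟨_, h2⟩ | h | h)
    · exact h2.ne rfl
    · exact key _ h
    · exact key _ h⟩

/-- The product `C5[G]` on the vertices `0, ..., 5 n - 1`. -/
def lexF (G : FinGraph) : FinGraph := ⟨5 * G.n, (lex5 G.graph).comap finProdFinEquiv.symm⟩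

open Classical in
/-- `H` has a fractional colouring of total weight `s`. -/
def FracCol {V : Type} [Fintype V] (H : SimpleGraph V) (s : ℝ) : Prop :=
  ∃ w : Finset V → ℝ, (∀ I, 0 ≤ w I) ∧
    (∀ I : Finset V, w I ≠ 0 → H.IsIndepSet (I : Set V)) ∧
    (∀ v, 1 ≤ ∑ I with v ∈ I, w I) ∧ ∑ I, w I = s

theorem fracChi_eq {V : Type} [Fintype V] (H : SimpleGraph V) :
    fracChi H = sInf {s : ℝ | FracCol H s} := rfl

open Classical in
/-- Part WFAM. -/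
def S_WFAM : Prop := ∀ (V A : Type) [Fintype V] [Fintype A] (H : SimpleGraph V) (w : A → ℝ)
  (J : A → Finset V), (∀ a, 0 ≤ w a) → (∀ a, w a ≠ 0 → H.IsIndepSet (J a : Set V)) →
  (∀ v, 1 ≤ ∑ a with v ∈ J a, w a) → fracChi H ≤ ∑ a, w a

/-- Part C5FAM. -/
def S_C5FAM : Prop := ∀ (W : ℕ) (y : Fin 5 → ℕ), (∀ i, y i + y (i + 1) ≤ W) →
  ∃ J : Fin W × Fin 5 → Finset (Fin 5), (∀ a, ∀ i ∈ J a, i + 1 ∉ J a) ∧
    ∀ i, 4 * y i ≤ #{a | i ∈ J a}

/-- Part PROD. -/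
def S_PROD : Prop := ∀ (V A : Type) [Fintype V] [Fintype A] (G : SimpleGraph V)
  (x : Fin 5 × V → ℕ) (y : Fin 5 → ℕ) (τ : ℝ) (J : A → Finset (Fin 5)), 0 ≤ τ →
  (∀ a, ∀ i ∈ J a, i + 1 ∉ J a) → (∀ i, 4 * y i ≤ #{a | i ∈ J a}) →
  (∀ i, ∃ s, FracCol (replicated G fun v => x (i, v)) s ∧ s ≤ τ * y i) →
  fracChi (replicated (lex5 G) x) ≤ Fintype.card A * τ / 4

/-- Part CLQ. -/
def S_CLQ : Prop := ∀ (V : Type) [Fintype V] (G : SimpleGraph V) (x : Fin 5 × V → ℕ) (i : Fin 5),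
  (replicated G fun v => x (i, v)).cliqueNum + (replicated G fun v => x (i + 1, v)).cliqueNum ≤
    (replicated (lex5 G) x).cliqueNum

/-- Part UB. -/
def S_UB : Prop := ∀ (V : Type) [Fintype V] (G : SimpleGraph V), imp (lex5 G) ≤ 5 / 4 * imp G

/-- Part RES. -/
def S_RES : Prop := ∀ (V : Type) [Fintype V] (G : SimpleGraph V) (x : V → ℕ) (s : ℝ),
  FracCol (replicated (lex5 G) fun p => x p.2) s → 5 / 2 * fracChi (replicated G x) ≤ s

/-- Part CLQ2. -/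
def S_CLQ2 : Prop := ∀ (V : Type) [Fintype V] (G : SimpleGraph V) (x : V → ℕ),
  (replicated (lex5 G) fun p => x p.2).cliqueNum ≤ 2 * (replicated G x).cliqueNum

/-- Part LB. -/
def S_LB : Prop := ∀ (V : Type) [Fintype V] (G : SimpleGraph V), 5 / 4 * imp G ≤ imp (lex5 G)

/-- Part ISO. -/
def S_ISO : Prop := ∀ (V W : Type) [Fintype V] [Fintype W] (G : SimpleGraph V)
  (H : SimpleGraph W) (_ : G ≃g H), imp G = imp H

/-- Part POLY. -/
def S_POLY : Prop := Pool.Agent.NPC.Poly lexF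

/-- Part UBC. -/
def S_UBC : Prop := ∀ (V : Type) [Fintype V] (G : SimpleGraph V) (p q : ℕ)
  (c : V → Finset (Fin p)), 0 < q → 2 * q ≤ p → (∀ v, #(c v) = q) →
  (∀ u v, G.Adj u v → Disjoint (c u) (c v)) → imp G ≤ p / (2 * q)

/-- Part LBC. -/
def S_LBC : Prop := ∀ (V : Type) [Fintype V] (G : SimpleGraph V) (p q n : ℕ), G.CliqueFree 3 →
  0 < p → 0 < q → 0 < n → Fintype.card V = p * n → imp G ≤ p / (2 * q) →
  ∃ I : Finset V, G.IsIndepSet (I : Set V) ∧ q * n ≤ #I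

/-- Adjacency in the circular clique `K_{p/q}` with vertices `0, ..., p - 1`. -/
def CA (p q a b : ℕ) : Prop := (a + q ≤ b ∧ b + q ≤ a + p) ∨ (b + q ≤ a ∧ a + q ≤ b + p)

instance (p q a b : ℕ) : Decidable (CA p q a b) := inferInstanceAs (Decidable (_ ∨ _))

/-- Part INT. -/
def S_INT : Prop := ∀ (p q : ℕ) (A : Finset ℕ), 0 < q → 2 * q < p → (∀ x ∈ A, x < p) →
  (∀ x ∈ A, ∀ y ∈ A, ¬ CA p q x y) → #A ≤ q ∧ (#A = q → ∃ a < p, ∀ x < p,
    (x ∈ A ↔ ((a ≤ x ∧ x < a + q) ∨ x + p < a + q)))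

end Pool.Agent.Y386.IR
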