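import Pool.Agent.Y386.IR.Stm

/-!
# The imperfection ratio: statements of the second round

`lexK a b G` is the lexicographic product of the circular clique `K_{a/b}` and `G`, whose
imperfection ratio is `a / (2 b)` times that of `G` when `2 b < a < 3 b`.
-/

namespace Pool.Agent.Y386.IR

open Pool.Agent.NPC Pool.Agent.H692R2 Finset

/-- The lexicographic product of the circular clique `K_{a/b}` and `G`: `a` copies of `G`, the
copies `i` and `j` being completely joined if `b ≤ |i - j| ≤ a - b`. -/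
def lexK {V : Type} (a b : ℕ) (G : SimpleGraph V) : SimpleGraph (Fin a × V) where
  Adj x y := (x.1 = y.1 ∧ G.Adj x.2 y.2) ∨ (x.1 ≠ y.1 ∧ CA a b x.1 y.1)
  symm := ⟨by
    rintro x y (⟨h1, h2⟩ | ⟨h1, h2⟩)
    · exact Or.inl ⟨h1.symm, h2.symm⟩
    · exact Or.inr ⟨h1.symm, Or.symm h2⟩⟩
  loopless := ⟨by
    rintro x (⟨_, h2⟩ | ⟨h, _⟩)
    · exact h2.ne rfl
    · exact h rfl⟩

/-- The product `K_{a/b}[G]` on the vertices `0, ..., a n - 1`. -/
def lexKF (a b : ℕ) (G : FinGraph) : FinGraph :=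
  ⟨a * G.n, (lexK a b G.graph).comap finProdFinEquiv.symm⟩

/-- Part FAM2. -/
def S_FAM2 : Prop := ∀ (a b W : ℕ) (y : Fin a → ℕ), 0 < b → 2 * b < a → (∀ i, y i ≤ W) →
  (∀ i j : Fin a, CA a b i j → y i + y j ≤ W) →
  ∃ J : Fin W × Fin a → Finset (Fin a), (∀ s, ∀ i ∈ J s, ∀ j ∈ J s, ¬ CA a b i j) ∧
    ∀ i, 2 * b * y i ≤ #{s | i ∈ J s}

/-- Part PROD2. -/
def S_PROD2 : Prop := ∀ (V A : Type) [Fintype V] [Fintype A] (G : SimpleGraph V) (a b : ℕ)
  (x : Fin a × V → ℕ) (y : Fin a → ℕ) (τ : ℝ) (J : A → Finset (Fin a)), 0 < b → 0 ≤ τ →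
  (∀ s, ∀ i ∈ J s, ∀ j ∈ J s, ¬ CA a b i j) → (∀ i, 2 * b * y i ≤ #{s | i ∈ J s}) →
  (∀ i, ∃ s, FracCol (replicated G fun v => x (i, v)) s ∧ s ≤ τ * y i) →
  fracChi (replicated (lexK a b G) x) ≤ Fintype.card A * τ / (2 * b)

/-- Part CLQ2a. -/
def S_CLQa : Prop := ∀ (V : Type) [Fintype V] (G : SimpleGraph V) (a b : ℕ)
  (x : Fin a × V → ℕ), (∀ i, (replicated G fun v => x (i, v)).cliqueNum ≤
    (replicated (lexK a b G) x).cliqueNum) ∧
  ∀ i j : Fin a, i ≠ j → CA a b i j →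
  (replicated G fun v => x (i, v)).cliqueNum + (replicated G fun v => x (j, v)).cliqueNum ≤
    (replicated (lexK a b G) x).cliqueNum

/-- Part UB2. -/
def S_UB2 : Prop := ∀ (V : Type) [Fintype V] (G : SimpleGraph V) (a b : ℕ), 0 < b → 2 * b < a →
  imp (lexK a b G) ≤ a / (2 * b) * imp G

/-- Part RES2. -/
def S_RES2 : Prop := ∀ (V : Type) [Fintype V] (G : SimpleGraph V) (a b : ℕ) (x : V → ℕ) (s : ℝ),
  0 < b → 2 * b < a → FracCol (replicated (lexK a b G) fun p => x p.2) s →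
  a / b * fracChi (replicated G x) ≤ s

/-- Part LB2. -/
def S_LB2 : Prop := ∀ (V : Type) [Fintype V] (G : SimpleGraph V) (a b : ℕ), 0 < b → 2 * b < a →
  a < 3 * b → a / (2 * b) * imp G ≤ imp (lexK a b G)

/-- Part POLY2. -/
def S_POLY2 : Prop := ∀ (α : Type) [TEnc α] (a b : α → ℕ) (G : α → FinGraph), UPoly a →
  NPC.Poly b → NPC.Poly G → NPC.Poly (fun z => lexKF (a z) (b z) (G z))

/-- Part ALPHA. -/
def S_ALPHA : Prop := ∀ (V : Type) [Fintype V] (G : SimpleGraph V) (α : ℕ), G.CliqueFree 3 →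
  0 < α → Nonempty V → (∀ I : Finset V, G.IsIndepSet (I : Set V) → #I ≤ α) →
  (Fintype.card V : ℝ) / (2 * α) ≤ imp G

/-- A property of graphs is decidable in polynomial time: a polynomial-time computable function on
bit strings answers `[true]` on the (adjacency matrix) code of a graph exactly when the graph has
the property. -/
def GraphPolyDecidable (Q : FinGraph → Prop) : Prop :=
  ∃ f : List Bool → List Bool, PolyTime f ∧ ∀ G : FinGraph, Q G ↔ f (bits G) = [true]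

/-- `P = NP`: every language in `NP` is decided by a polynomial-time function. -/
def PEqNP : Prop :=
  ∀ L : Set (List Bool), InNP L → ∃ f : List Bool → List Bool, PolyTime f ∧
    ∀ x, x ∈ L ↔ f x = [true]

/-- Part ORAC. -/
def S_ORAC : Prop := ∀ Q : FinGraph → Prop, GraphPolyDecidable Q →
  ∃ D : FinGraph → Bool, NPC.Poly D ∧ ∀ G, Q G ↔ D G = true

end Pool.Agent.Y386.IR
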