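import Pool.Agent.Y386.IR.Stm2
import Pool.Agent.Y386.IR.Red

/-!
# The imperfection ratio: statements of the third round

Here `p = 2 k + 1`, `q = k`, `L = 2 k - 1` for some `k ≥ 2`, so that `K_{p/q}` is the cycle of
length `2 k + 1`.
-/

namespace Pool.Agent.Y386.IR

open Pool.Agent.NPC Pool.Agent.H692R2 Finset

/-- Part WALK: two vertices of the `(2k+1)`-cycle are joined by a walk of length `2k-1` iff they are
different. -/
def S_WALK : Prop := ∀ k : ℕ, 2 ≤ k →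
  (∀ a b : ℕ, a < 2 * k + 1 → b < 2 * k + 1 → a ≠ b → ∃ w : ℕ → ℕ, w 0 = a ∧
    w (2 * k - 1) = b ∧ (∀ j, w j < 2 * k + 1) ∧
    ∀ j, j < 2 * k - 1 → CA (2 * k + 1) k (w j) (w (j + 1))) ∧
  (∀ w : ℕ → ℕ, (∀ j, j ≤ 2 * k - 1 → w j < 2 * k + 1) →
    (∀ j, j < 2 * k - 1 → CA (2 * k + 1) k (w j) (w (j + 1))) → w 0 ≠ w (2 * k - 1))

/-- Part HOM: a `(2k+1)`-colouring gives a homomorphism of the subdivided graph to the cycle. -/
def S_HOM : Prop := ∀ (k : ℕ) (E : List (ℕ × ℕ)), 2 ≤ k → Col (2 * k + 1) E →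
  ∃ φ : Lab → ℕ, (∀ x, φ x < 2 * k + 1) ∧
    ∀ x y, sA (2 * k - 1) E x y → CA (2 * k + 1) k (φ x) (φ y)

/-- Part YES: a homomorphism of the subdivided graph gives a `(p:q)`-colouring of the
product. -/
def S_YES : Prop := ∀ (p q L : ℕ) (hq : 0 < q) (hL : 3 ≤ L) (E : List (ℕ × ℕ)) (φ : Lab → ℕ),
  2 * q < p → (∀ x, φ x < p) → (∀ x y, sA L E x y → CA p q (φ x) (φ y)) →
  ∃ c : Fin ((sV L E).length * p) → Finset (Fin p), (∀ v, #(c v) = q) ∧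
    ∀ u v, (gr p q L hq hL E).Adj u v → Disjoint (c u) (c v)

/-- Part FIB: the independent sets of the product. -/
def S_FIB : Prop := ∀ (p q L : ℕ) (hq : 0 < q) (hL : 3 ≤ L) (E : List (ℕ × ℕ))
  (I : Finset (Fin ((sV L E).length * p))), 2 * q < p →
  (gr p q L hq hL E).IsIndepSet (I : Set (Fin ((sV L E).length * p))) →
  #I ≤ q * (sV L E).length ∧ (#I = q * (sV L E).length →
    ∃ ψ : Lab → ℕ, (∀ x, x ∈ sV L E → ψ x < p) ∧
      ∀ x y, x ∈ sV L E → y ∈ sV L E → sA L E x y → CA p q (ψ x) (ψ y))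

/-- Part COL: a homomorphism to the `(2k+1)`-cycle on the vertices of the subdivided graph gives a
`(2k+1)`-colouring. -/
def S_COL : Prop := ∀ (k : ℕ) (E : List (ℕ × ℕ)) (ψ : Lab → ℕ), 2 ≤ k →
  (∀ x, x ∈ sV (2 * k - 1) E → ψ x < 2 * k + 1) →
  (∀ x y, x ∈ sV (2 * k - 1) E → y ∈ sV (2 * k - 1) E → sA (2 * k - 1) E x y →
    CA (2 * k + 1) k (ψ x) (ψ y)) → Col (2 * k + 1) E

/-- Part NUM: the choice of the numerator, by counting. -/
def S_NUM : Prop := ∀ (X : ℝ) (b : ℕ) (D : ℕ → Bool), 1 ≤ X → X < b →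
  (∀ j : ℕ, 1 ≤ j → j < b → (D j = true ↔ (j : ℝ) ≤ X)) →
  ((((List.range b).filter fun j => decide (1 ≤ j) && D j).length : ℕ) : ℝ) ≤ X ∧
  X < (((List.range b).filter fun j => decide (1 ≤ j) && D j).length : ℕ) + 1

/-- Part THR: thresholds and powers of `4/5`. -/
def S_THR : Prop := ∀ P : ℝ → Prop, (∀ t, P t → P (4 / 5 * t)) → ∀ t, 1 < t → P t →
  ∃ t', 1 < t' ∧ t' ≤ 5 / 4 ∧ P t'

/-- Part TRI: the product is triangle-free. -/
def S_TRI : Prop := ∀ (p q L : ℕ) (hq : 0 < q) (hL : 3 ≤ L) (E : List (ℕ × ℕ)), L % 2 = 1 →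
  p < 3 * q → Loopless E → (gr p q L hq hL E).CliqueFree 3

end Pool.Agent.Y386.IR
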